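import Pool.Agent.Helper533.StarBox.PlaneFull

/-!
Disproof of the starshapedness question: there is a bounded open starshaped box of the plane and an
area for which a minimiser of the first Dirichlet eigenvalue exists and no minimiser is starshaped,
even up to null sets.
-/

open MeasureTheory Metric Set Pool.Agent.Helper533.StarBox
  Pool.Agent.Helper533.StarBox.PlaneDefs

namespace Pool.Agent.Results.MP_36ee72_an.StarshapedBoxDisproof

/-- There are a bounded open set `D` of the plane, starshaped with respect to one of its points, and
`A` with `0 < A < |D|`, such that the first eigenvalue has a minimiser among the open subsets of `D`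
of area `A`, and no such minimiser coincides, even up to a Lebesgue null set, with an open set
starshaped with respect to some point. -/
theorem result :
    ∃ (D : Set Plane) (A : ℝ),
      IsOpen D ∧ Bornology.IsBounded D ∧ (∃ x₀ ∈ D, StarConvex ℝ x₀ D) ∧
      0 < A ∧ ENNReal.ofReal A < volume D ∧
      (∃ Ω, IsMinimizer D A Ω) ∧
      ∀ Ω, IsMinimizer D A Ω →
        ∀ S : Set Plane, IsOpen S → (∃ x₁, StarConvex ℝ x₁ S) → volume (symmDiff Ω S) ≠ 0 :=
  plane_full

end Pool.Agent.Results.MP_36ee72_an.StarshapedBoxDisproof
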