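import Pool.Agent.Helper533.StarBox.Plane

/-!
A bounded open starshaped box of the plane and an area for which no minimiser of the first
Dirichlet eigenvalue is starshaped, even up to null sets.
-/

open MeasureTheory Metric Set Pool.Agent.Helper533.StarBox
  Pool.Agent.Helper533.StarBox.PlaneDefs

namespace Pool.Agent.Results.MP_36ee72_an.StarshapedBoxNoStarshapedMin

/-- There are a bounded open set `D` of the plane, starshaped with respect to one of its points, and
`A` with `0 < A < |D|`, such that no minimiser of the first eigenvalue among the open subsets of `D`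
of area `A` coincides, even up to a Lebesgue null set, with an open starshaped set. -/
theorem result :
    ∃ (D : Set Plane) (A : ℝ),
      IsOpen D ∧ Bornology.IsBounded D ∧ (∃ x₀ ∈ D, StarConvex ℝ x₀ D) ∧
      0 < A ∧ ENNReal.ofReal A < volume D ∧
      ∀ Ω, IsMinimizer D A Ω →
        ∀ S : Set Plane, IsOpen S → (∃ x₁, StarConvex ℝ x₁ S) → volume (symmDiff Ω S) ≠ 0 :=
  plane_partial

end Pool.Agent.Results.MP_36ee72_an.StarshapedBoxNoStarshapedMin
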